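import Mathlib

/-!
# MP_32880b_ag : the multiplicity of a point of the Monster (Semple) tower is well defined

Everything is written in the standard (Kumpera-Rubin) coordinates of the tower.
A chart of `P^k(n)` is given by `c 0, …, c (k-1) : Fin n`.  On level `j` there are `n` active
coordinates `z j 0, …, z j (n-1)`; their differentials are coordinates on the rank-`n`
distribution `Δ_j`.  On level `0` they are the coordinates of `ℂ^n`.  The chart of level `j+1`
given by `c j` consists of the lines of `Δ_j` on which `d (z j (c j)) ≠ 0`; there the old coordinate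
`z j (c j)` stays active, and the other active coordinates are the slopes
`z (j+1) i = d (z j i) / d (z j (c j))`.  The point `p = γ^k(0)` is given by the values at `t = 0`
of all the coordinates `z j i`, `j ≤ k`.
-/

namespace Pool.Agent.Results.MP_32880b_ag.MultiplicityWellDefined

open PowerSeries

/-- `z 0, …, z k` are the active coordinates, in the chart `c 0, …, c (k-1)`, of the prolongations
`γ^0 = γ, γ^1, …, γ^k` of the curve germ `γ : (ℂ, 0) → ℂ^n` (whose components are power series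
in `t`). In particular each `γ^j(0)`, `j ≤ k`, lies in the chart: the slopes are power series. -/
structure IsLift {n : ℕ} (c : ℕ → Fin n) (k : ℕ) (γ : Fin n → ℂ⟦X⟧)
    (z : ℕ → Fin n → ℂ⟦X⟧) : Prop where
  base : z 0 = γ
  keep : ∀ j < k, z (j + 1) (c j) = z j (c j)
  nonconst : ∀ j < k, d⁄dX ℂ (z j (c j)) ≠ 0
  slope : ∀ j < k, ∀ i, i ≠ c j →
    d⁄dX ℂ (z j i) = z (j + 1) i * d⁄dX ℂ (z j (c j))

/-- The coordinates of the point `γ^k(0)` of the tower: the values at `t = 0` of the active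
coordinates of all levels. -/
noncomputable def value {n : ℕ} (z : ℕ → Fin n → ℂ⟦X⟧) (j : ℕ) (i : Fin n) : ℂ :=
  constantCoeff (z j i)

/-- `p ∈ P^{k-j-1}(F_{j+1})`, in coordinates. The fibre `F_{j+1}` of `π_{j+1,j}` through `p_{j+1}`
has tangent space `d (z (j+1) (c j)) = 0` in `Δ_{j+1}`; its prolongations consist of the
points all of whose later coordinates with index `c j` exist as slopes and vanish. -/
def InFibreProlongation {n : ℕ} (c : ℕ → Fin n) (v : ℕ → Fin n → ℂ) (k j : ℕ) : Prop :=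
  ∀ i, j < i → i < k → c i ≠ c j ∧ v (i + 1) (c j) = 0

/-- The hyperplane `d (z k s) = 0` of `Δ_k(p)` is one of the critical hyperplanes
`δ_{j+1}^{k-j-1}(p)`, `0 ≤ j < k`, at `p`. -/
def IsCritical {n : ℕ} (c : ℕ → Fin n) (v : ℕ → Fin n → ℂ) (k : ℕ) (s : Fin n) : Prop :=
  ∃ j < k, c j = s ∧ InFibreProlongation c v k j

/-- `γ^k` is regular at `0`: it is immersed at `0` (some coordinate of `P^k(n)` has nonzero
derivative along `γ^k` at `0`) and its tangent line lies in no critical hyperplane. -/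
def IsRegular {n : ℕ} (c : ℕ → Fin n) (k : ℕ) (z : ℕ → Fin n → ℂ⟦X⟧) : Prop :=
  (∃ j ≤ k, ∃ i, coeff 1 (z j i) ≠ 0) ∧
    ∀ s, IsCritical c (value z) k s → coeff 1 (z k s) ≠ 0

/-- The order of vanishing of `f - f(0)`. -/
noncomputable def ord (f : ℂ⟦X⟧) : ℕ∞ := (f - C (constantCoeff f)).order

/-- The multiplicity of a curve germ `γ` in `ℂ^n`. -/
noncomputable def mult {n : ℕ} (γ : Fin n → ℂ⟦X⟧) : ℕ∞ := ⨅ i, ord (γ i)

theorem ord_eq (f : ℂ⟦X⟧) : ord f = (d⁄dX ℂ f).order + 1 := by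
  unfold ord
  set g := f - C (constantCoeff f) with hg
  have hd : d⁄dX ℂ f = d⁄dX ℂ g := by
    rw [hg, map_sub, derivative_C, sub_zero]
  have hg0 : coeff 0 g = 0 := by
    rw [hg]; simp
  rw [hd]
  by_cases h : d⁄dX ℂ g = 0
  · have : g = 0 := by
      ext m
      rcases m with _ | m
      · simpa using hg0
      · have := congrArg (coeff m) h
        rw [coeff_derivative, map_zero] at this
        have h2 : ((m : ℂ) + 1) ≠ 0 := by exact_mod_cast Nat.succ_ne_zero m
        simpa [h2] using this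
    rw [this, map_zero, order_zero]; rfl
  · obtain ⟨m, hm⟩ := ENat.ne_top_iff_exists.mp (fun h' => h (order_eq_top.mp h'))
    rw [← hm]
    have hm2 := (order_eq_nat.mp hm.symm)
    have : g.order = ((m + 1 : ℕ) : ℕ∞) := by
      rw [order_eq_nat]
      refine ⟨?_, ?_⟩
      · intro h0
        apply hm2.1
        rw [coeff_derivative, h0, zero_mul]
      · intro i hi
        rcases i with _ | i
        · exact hg0
        · have := hm2.2 i (by omega)
          rw [coeff_derivative] at this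
          have h2 : ((i : ℂ) + 1) ≠ 0 := by exact_mod_cast Nat.succ_ne_zero i
          exact (mul_eq_zero.mp this).resolve_right h2
    rw [this]; rfl

theorem ord_of_coeff_one {f : ℂ⟦X⟧} (h : coeff 1 f ≠ 0) : ord f = 1 := by
  rw [ord_eq]
  have : (d⁄dX ℂ f).order = ((0 : ℕ) : ℕ∞) := by
    rw [order_eq_nat]
    refine ⟨?_, fun i hi => absurd hi (Nat.not_lt_zero _)⟩
    rw [coeff_derivative]
    simpa using h
  rw [this]; rfl

section
variable {n : ℕ} {c : ℕ → Fin n} {k : ℕ} {γ : Fin n → ℂ⟦X⟧} {z : ℕ → Fin n → ℂ⟦X⟧}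

theorem ord_slope (h : IsLift c k γ z) {j : ℕ} (hj : j < k) {i : Fin n} (hi : i ≠ c j) :
    ord (z j i) = (z (j + 1) i).order + ord (z j (c j)) := by
  rw [ord_eq, ord_eq, h.slope j hj i hi, order_mul, add_assoc]

theorem ord_of_zero {f : ℂ⟦X⟧} (h : constantCoeff f = 0) : ord f = f.order := by
  unfold ord; rw [h, map_zero, sub_zero]

theorem order_of_ne {f : ℂ⟦X⟧} (h : constantCoeff f ≠ 0) : f.order = 0 := by
  have : f.order = ((0 : ℕ) : ℕ∞) := by
    rw [order_eq_nat]
    exact ⟨by simpa using h, fun i hi => absurd hi (Nat.not_lt_zero _)⟩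
  simpa using this

theorem crit_top (hj : ℕ) : IsCritical c (value z) (hj + 1) (c hj) :=
  ⟨hj, Nat.lt_succ_self _, rfl, fun i h1 h2 => by omega⟩

theorem crit_step {v : ℕ → Fin n → ℂ} {j : ℕ} {s : Fin n} (h : IsCritical c v j s) (hs : s ≠ c j)
    (h0 : v (j + 1) s = 0) : IsCritical c v (j + 1) s := by
  obtain ⟨i, hi, hc, hF⟩ := h
  refine ⟨i, by omega, hc, ?_⟩
  intro l h1 h2
  rcases Nat.lt_or_ge l j with h3 | h3
  · exact hF l h1 h3
  · have : l = j := by omega
    subst this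
    rw [hc]
    exact ⟨Ne.symm hs, h0⟩
end

/-- Two germs with the same point: all critical orders agree, by downward induction. -/
theorem key {n : ℕ} {c : ℕ → Fin n} {k : ℕ} {γ δ : Fin n → ℂ⟦X⟧} {z w : ℕ → Fin n → ℂ⟦X⟧}
    (hz : IsLift c k γ z) (hw : IsLift c k δ w)
    (hv : ∀ j ≤ k, ∀ i, value z j i = value w j i)
    (rz : IsRegular c k z) (rw' : IsRegular c k w) :
    ∀ r j, j + r = k → (∀ s, IsCritical c (value z) j s → ord (z j s) = ord (w j s)) ∧
      (j < k → ord (z j (c j)) = ord (w j (c j))) := by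
  have hcr : ∀ s, IsCritical c (value z) k s → IsCritical c (value w) k s := by
    rintro s ⟨j, hj, hc, hF⟩
    refine ⟨j, hj, hc, fun i h1 h2 => ⟨(hF i h1 h2).1, ?_⟩⟩
    rw [← hv (i + 1) (by omega)]
    exact (hF i h1 h2).2
  intro r
  induction r with
  | zero =>
    intro j hj
    have hj' : j = k := by omega
    subst hj'
    refine ⟨fun s hs => ?_, fun h => absurd h (lt_irrefl _)⟩
    rw [ord_of_coeff_one (rz.2 s hs), ord_of_coeff_one (rw'.2 s (hcr s hs))]
  | succ r ih =>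
    intro j hj
    obtain ⟨h1, -⟩ := ih (j + 1) (by omega)
    have hjk : j < k := by omega
    have hb : ord (z j (c j)) = ord (w j (c j)) := by
      rw [← hz.keep j hjk, ← hw.keep j hjk]
      exact h1 _ (crit_top j)
    refine ⟨fun s hs => ?_, fun _ => hb⟩
    by_cases hsc : s = c j
    · rw [hsc]; exact hb
    · rw [ord_slope hz hjk hsc, ord_slope hw hjk hsc, hb]
      congr 1
      by_cases h0 : value z (j + 1) s = 0
      · have h2 := h1 s (crit_step hs hsc h0)
        have h0' : value w (j + 1) s = 0 := by rw [← hv (j + 1) (by omega)]; exact h0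
        rwa [ord_of_zero h0, ord_of_zero h0'] at h2
      · have h0' : value w (j + 1) s ≠ 0 := by rw [← hv (j + 1) (by omega)]; exact h0
        rw [order_of_ne h0, order_of_ne h0']

theorem mult_eq {n : ℕ} {c : ℕ → Fin n} {k : ℕ} {γ : Fin n → ℂ⟦X⟧} {z : ℕ → Fin n → ℂ⟦X⟧}
    (hz : IsLift c k γ z) (hk : 1 ≤ k) : mult γ = ord (z 0 (c 0)) := by
  unfold mult
  apply le_antisymm
  · rw [hz.base]; exact iInf_le _ _
  · refine le_iInf fun i => ?_
    by_cases hi : i = c 0
    · rw [hi, hz.base]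
    · have := ord_slope hz (j := 0) (by omega) hi
      rw [hz.base] at this ⊢
      rw [this]
      exact le_add_self

/-- Every nonconstant germ can be prolonged (the slopes are power series) in a suitable chart. -/
theorem exists_lift {n : ℕ} (γ : Fin n → ℂ⟦X⟧) (hγ : ∃ i, d⁄dX ℂ (γ i) ≠ 0) (k : ℕ) :
    ∃ (c : ℕ → Fin n) (z : ℕ → Fin n → ℂ⟦X⟧), IsLift c k γ z := by
  classical
  -- one step
  have step : ∀ f : {f : Fin n → ℂ⟦X⟧ // ∃ i, d⁄dX ℂ (f i) ≠ 0},
      ∃ (b : Fin n) (g : {g : Fin n → ℂ⟦X⟧ // ∃ i, d⁄dX ℂ (g i) ≠ 0}),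
        g.1 b = f.1 b ∧ d⁄dX ℂ (f.1 b) ≠ 0 ∧
          ∀ i, i ≠ b → d⁄dX ℂ (f.1 i) = g.1 i * d⁄dX ℂ (f.1 b) := by
    rintro ⟨f, i0, hi0⟩
    obtain ⟨b, -, hb⟩ := Finset.exists_min_image Finset.univ
      (fun i => (d⁄dX ℂ (f i)).order) ⟨i0, Finset.mem_univ _⟩
    have hb0 : d⁄dX ℂ (f b) ≠ 0 := by
      intro h
      have := hb i0 (Finset.mem_univ _)
      rw [h, order_zero, top_le_iff, order_eq_top] at this
      exact hi0 this
    have hdiv : ∀ i, ∃ g : ℂ⟦X⟧, d⁄dX ℂ (f i) = g * d⁄dX ℂ (f b) := by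
      intro i
      by_cases hi : d⁄dX ℂ (f i) = 0
      · exact ⟨0, by rw [hi, zero_mul]⟩
      have h1 := X_pow_order_dvd (φ := d⁄dX ℂ (f i))
      have h2 : (X : ℂ⟦X⟧) ^ (d⁄dX ℂ (f b)).order.toNat ∣ d⁄dX ℂ (f i) := by
        refine (pow_dvd_pow _ ?_).trans h1
        exact ENat.toNat_le_toNat (hb i (Finset.mem_univ _)) (fun h => hi (order_eq_top.mp h))
      obtain ⟨u, hu⟩ := X_pow_order_dvd (φ := d⁄dX ℂ (f b))
      have hu' : IsUnit u := by
        have h3 := isUnit_divided_by_X_pow_order hb0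
        have h4 : (X : ℂ⟦X⟧) ^ (d⁄dX ℂ (f b)).order.toNat * u
            = (X : ℂ⟦X⟧) ^ (d⁄dX ℂ (f b)).order.toNat * divXPowOrder (d⁄dX ℂ (f b)) := by
          rw [← hu, X_pow_order_mul_divXPowOrder]
        have h5 := mul_left_cancel₀ (pow_ne_zero _ X_ne_zero) h4
        rw [h5]; exact h3
      obtain ⟨u', hu'⟩ := hu'.exists_left_inv
      obtain ⟨q, hq⟩ := h2
      refine ⟨q * u', ?_⟩
      rw [hq]
      linear_combination (-(q * u')) * hu - ((X : ℂ⟦X⟧) ^ (d⁄dX ℂ (f b)).order.toNat * q) * hu'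
    choose g hg using hdiv
    refine ⟨b, ⟨fun i => if i = b then f b else g i, b, by simpa using hb0⟩, by simp, hb0, ?_⟩
    intro i hi
    simpa [hi] using hg i
  choose B G hG using step
  let st : ℕ → {f : Fin n → ℂ⟦X⟧ // ∃ i, d⁄dX ℂ (f i) ≠ 0} := fun j =>
    Nat.rec ⟨γ, hγ⟩ (fun _ f => G f) j
  refine ⟨fun j => B (st j), fun j => (st j).1, rfl, fun j _ => ?_, fun j _ => ?_, fun j _ => ?_⟩
  · exact (hG (st j)).1
  · exact (hG (st j)).2.1
  · exact (hG (st j)).2.2

/-- **The multiplicity of a point of the Monster tower is well defined.** -/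
theorem result :
    (∀ n ≥ 2, ∀ k ≥ 1, ∀ (c : ℕ → Fin n) (γ δ : Fin n → ℂ⟦X⟧) (z w : ℕ → Fin n → ℂ⟦X⟧),
      IsLift c k γ z → IsLift c k δ w →
      (∀ j ≤ k, ∀ i, value z j i = value w j i) →
      IsRegular c k z → IsRegular c k w → mult γ = mult δ) ∧
    (∀ n ≥ 2, ∀ (γ : Fin n → ℂ⟦X⟧), (∃ i, γ i ≠ C (constantCoeff (γ i))) →
      ∀ k, ∃ (c : ℕ → Fin n) (z : ℕ → Fin n → ℂ⟦X⟧), IsLift c k γ z) := by
  refine ⟨?_, ?_⟩
  · intro n _ k hk c γ δ z w hz hw hv rz rw'
    rw [mult_eq hz hk, mult_eq hw hk]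
    exact (key hz hw hv rz rw' k 0 (by omega)).2 (by omega)
  · rintro n _ γ ⟨i, hi⟩ k
    refine exists_lift γ ⟨i, fun h => hi ?_⟩ k
    have h1 := ord_eq (γ i)
    rw [h, order_zero] at h1
    unfold ord at h1
    have h2 : (γ i - C (constantCoeff (γ i))).order = ⊤ := by rw [h1]; rfl
    exact sub_eq_zero.mp (order_eq_top.mp h2)

end Pool.Agent.Results.MP_32880b_ag.MultiplicityWellDefined
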